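import Mathlib
import Pool.Agent.Work.MP_db9399_px.LInterface

/-!
# MP_db9399, PARTX, block LNUM (helper23): the numbers
-/

set_option autoImplicit false

namespace Pool.Agent.Work.MP_db9399_px.helper23

open Finset Filter
open Pool.Agent.Work.MP_db9399_px

theorem pow_le_exp (k : ℕ) (b c : ℝ) (hb : 0 < b) (hc : 0 < c) :
    ∃ X : ℝ, 1 ≤ X ∧ ∀ x : ℝ, X ≤ x → x ^ k ≤ c * Real.exp (b * x) := by
  have h := (isLittleO_pow_exp_pos_mul_atTop k hb).def hc
  obtain ⟨X, hX⟩ := eventually_atTop.mp h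
  refine ⟨max X 1, le_max_right _ _, ?_⟩
  intro x hx
  have h1 := hX x (le_trans (le_max_left _ _) hx)
  have hx1 : 1 ≤ x := le_trans (le_max_right _ _) hx
  rw [Real.norm_of_nonneg (by positivity), Real.norm_of_nonneg (Real.exp_pos _).le] at h1
  exact h1

theorem num1 (m d s E : ℝ) (hm : 0 < m) (hd : 1 ≤ d) (hs : 0 < s)
    (h : d ^ 5 ≤ s / (64 * 32 * m) * E) :
    64 * m * (d + 1) ^ 5 ≤ s * E := by
  have h1 : (d + 1) ^ 5 ≤ (2 * d) ^ 5 := pow_le_pow_left₀ (by linarith) (by linarith) 5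
  have h2 : (2 * d) ^ 5 = 32 * d ^ 5 := by ring
  calc 64 * m * (d + 1) ^ 5 ≤ 64 * m * (32 * d ^ 5) := by
        rw [← h2]; exact mul_le_mul_of_nonneg_left h1 (by positivity)
    _ ≤ 64 * m * (32 * (s / (64 * 32 * m) * E)) := by
        apply mul_le_mul_of_nonneg_left _ (by positivity)
        exact mul_le_mul_of_nonneg_left h (by positivity)
    _ = s * E := by field_simp

theorem stmt_LNUM : Stmt_LNUM := by
  intro M s c1 e1 hM hs hc1 he1
  have hMR : (0 : ℝ) < M := by exact_mod_cast hM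
  obtain ⟨m, hm⟩ : ∃ m : ℝ, m = M * (20 * 4 ^ M) := ⟨_, rfl⟩
  have hm0 : 0 < m := by rw [hm]; positivity
  obtain ⟨X1, hX1, h1⟩ := pow_le_exp 5 e1 (s / (64 * 32 * m)) he1 (by positivity)
  obtain ⟨Cm, hCm⟩ : ∃ C : ℝ, C = max 1 (64 * m / s) := ⟨_, rfl⟩
  have hCm1 : 1 ≤ Cm := by rw [hCm]; exact le_max_left _ _
  have hCm2 : 64 * m / s ≤ Cm := by rw [hCm]; exact le_max_right _ _
  obtain ⟨κ, hκ⟩ : ∃ κ : ℝ, κ = 3 / 4 * s * c1 := ⟨_, rfl⟩
  have hκ0 : 0 < κ := by rw [hκ]; positivity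
  obtain ⟨X2, hX2, h2⟩ := pow_le_exp 18 (κ / 2) (1 / (32 * Cm * 512)) (by positivity)
    (by positivity)
  refine ⟨⌈X1⌉₊ + ⌈X2 ^ 2⌉₊ + 3, by omega, ?_⟩
  intro d hd
  have hd3 : (3 : ℝ) ≤ d := by exact_mod_cast (by omega : 3 ≤ d)
  have hdX1 : X1 ≤ d := le_trans (Nat.le_ceil _) (by exact_mod_cast (by omega : ⌈X1⌉₊ ≤ d))
  have hdX2 : X2 ^ 2 ≤ d :=
    le_trans (Nat.le_ceil _) (by exact_mod_cast (by omega : ⌈X2 ^ 2⌉₊ ≤ d))
  have hd0 : (0 : ℝ) < d := by linarith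
  constructor
  · have h := num1 m d s (Real.exp (e1 * d)) hm0 (by linarith) hs (h1 d hdX1)
    have hE : Real.exp (-(e1 * d)) * Real.exp (e1 * d) = 1 := by
      rw [← Real.exp_add]; simp
    rw [le_div_iff₀ (by norm_num), le_div_iff₀ (by positivity)]
    have hpos : 0 < Real.exp (e1 * d) := Real.exp_pos _
    have key : (M : ℝ) * (d + 1) ^ 4 * (20 * 4 ^ M * Real.exp (-(e1 * d))) * 4 *
        (16 * (d + 1)) * Real.exp (e1 * d) ≤ s * Real.exp (e1 * d) := by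
      calc (M : ℝ) * (d + 1) ^ 4 * (20 * 4 ^ M * Real.exp (-(e1 * d))) * 4 *
            (16 * (d + 1)) * Real.exp (e1 * d) =
            64 * (M * (20 * 4 ^ M)) * (d + 1) ^ 5 *
              (Real.exp (-(e1 * d)) * Real.exp (e1 * d)) := by ring
        _ = 64 * m * (d + 1) ^ 5 := by rw [hE, mul_one, hm]
        _ ≤ _ := h
    exact le_of_mul_le_mul_right key hpos
  · intro L hL
    -- log d ≤ 2 √d
    have hlog0 : 0 < Real.log d := Real.log_pos (by linarith)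
    have hsq0 : 0 < √(d : ℝ) := Real.sqrt_pos.mpr hd0
    have hsq : √(d : ℝ) * √(d : ℝ) = d := Real.mul_self_sqrt hd0.le
    have hlog : Real.log d ≤ 2 * √(d : ℝ) := by
      have h := Real.log_le_sub_one_of_pos hsq0
      rw [Real.log_sqrt hd0.le] at h
      linarith
    have hX2s : X2 ≤ √(d : ℝ) := Real.le_sqrt_of_sq_le hdX2
    have h3 := h2 _ hX2s
    have h4 : κ / 2 * √(d : ℝ) ≤ κ * (d / Real.log d) := by
      have : √(d : ℝ) / 2 ≤ d / Real.log d := by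
        rw [div_le_div_iff₀ (by norm_num) hlog0]
        calc √(d : ℝ) * Real.log d ≤ √(d : ℝ) * (2 * √(d : ℝ)) :=
              mul_le_mul_of_nonneg_left hlog hsq0.le
          _ = √(d : ℝ) * √(d : ℝ) * 2 := by ring
          _ = d * 2 := by rw [hsq]
      calc κ / 2 * √(d : ℝ) = κ * (√(d : ℝ) / 2) := by ring
        _ ≤ κ * (d / Real.log d) := mul_le_mul_of_nonneg_left this hκ0.le
    obtain ⟨E, hE⟩ : ∃ E : ℝ, E = Real.exp (-(κ * (d / Real.log d))) := ⟨_, rfl⟩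
    have hE0 : 0 < E := by rw [hE]; exact Real.exp_pos _
    have hEE : E * Real.exp (κ / 2 * √(d : ℝ)) ≤ 1 := by
      rw [hE, ← Real.exp_add, Real.exp_le_one_iff]
      linarith
    obtain ⟨a, ha⟩ : ∃ a : ℝ, a = (d : ℝ) + 2 := ⟨_, rfl⟩
    have ha1 : 1 ≤ a := by rw [ha]; linarith
    have ha9 : a ^ 9 ≤ 512 * √(d : ℝ) ^ 18 := by
      have h5 : a ^ 9 ≤ (2 * (d : ℝ)) ^ 9 := pow_le_pow_left₀ (by linarith)
        (by rw [ha]; linarith) 9
      have h6 : √(d : ℝ) ^ 18 = (d : ℝ) ^ 9 := by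
        calc √(d : ℝ) ^ 18 = (√(d : ℝ) * √(d : ℝ)) ^ 9 := by ring
          _ = (d : ℝ) ^ 9 := by rw [hsq]
      rw [h6]
      calc a ^ 9 ≤ (2 * (d : ℝ)) ^ 9 := h5
        _ = 512 * (d : ℝ) ^ 9 := by ring
    have hY : Cm * (32 * (a ^ 9 * E)) ≤ 1 := by
      calc Cm * (32 * (a ^ 9 * E)) ≤ Cm * (32 * (512 * √(d : ℝ) ^ 18 * E)) := by
            apply mul_le_mul_of_nonneg_left _ (by linarith)
            apply mul_le_mul_of_nonneg_left _ (by norm_num)
            exact mul_le_mul_of_nonneg_right ha9 hE0.le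
        _ ≤ Cm * (32 * (512 * (1 / (32 * Cm * 512) * Real.exp (κ / 2 * √(d : ℝ))) * E)) := by
            apply mul_le_mul_of_nonneg_left _ (by linarith)
            apply mul_le_mul_of_nonneg_left _ (by norm_num)
            apply mul_le_mul_of_nonneg_right _ hE0.le
            exact mul_le_mul_of_nonneg_left h3 (by norm_num)
        _ = E * Real.exp (κ / 2 * √(d : ℝ)) := by
            have : Cm ≠ 0 := by linarith
            field_simp
        _ ≤ 1 := hEE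
    have hYL : (Cm * (32 * (a ^ 9 * E))) ^ L ≤ 1 := pow_le_one₀ (by positivity) hY
    have hexp : Real.exp (-(3 / 4 * s * (c1 * L * d / Real.log d))) = E ^ L := by
      rw [hE, ← Real.exp_nat_mul, hκ]
      congr 1
      ring
    rw [hexp, le_div_iff₀ (by positivity), le_div_iff₀ (by norm_num), le_div_iff₀ (by positivity)]
    -- collect
    have hd1a : (d : ℝ) + 1 ≤ a := by rw [ha]; linarith
    have g1 : ((d : ℝ) + 1) ^ (L + 3) * (d + 1) ≤ a ^ (5 * L) := by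
      calc ((d : ℝ) + 1) ^ (L + 3) * (d + 1) = ((d : ℝ) + 1) ^ (L + 4) := by ring
        _ ≤ a ^ (L + 4) := pow_le_pow_left₀ (by linarith) hd1a _
        _ ≤ a ^ (5 * L) := pow_le_pow_right₀ ha1 (by omega)
    have g2 : ((d : ℝ) + 2) ^ 2 ≤ a ^ (2 * L) := by
      rw [← ha]; exact pow_le_pow_right₀ ha1 (by omega)
    have g3 : (4 * ((d : ℝ) + 1)) ^ (L + 1) ≤ (4 * a) ^ (2 * L) := by
      calc (4 * ((d : ℝ) + 1)) ^ (L + 1) ≤ (4 * a) ^ (L + 1) :=
            pow_le_pow_left₀ (by linarith) (by linarith) _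
        _ ≤ (4 * a) ^ (2 * L) := pow_le_pow_right₀ (by linarith) (by omega)
    have g4 : 64 * m ≤ s * Cm ^ L := by
      have h7 : Cm ≤ Cm ^ L := le_self_pow₀ hCm1 (by omega)
      have h8 : 64 * m / s ≤ Cm ^ L := le_trans hCm2 h7
      rw [div_le_iff₀ hs] at h8
      linarith
    calc (M : ℝ) * (d + 1) ^ (L + 3) * (20 * 4 ^ M * (d + 2) ^ 2 *
          (4 * (d + 1)) ^ (L + 1) * E ^ L) * 2 ^ L * 4 * (16 * (d + 1))
        = 64 * m * ((((d : ℝ) + 1) ^ (L + 3) * (d + 1)) * ((d + 2) ^ 2 *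
          ((4 * (d + 1)) ^ (L + 1) * (E ^ L * 2 ^ L)))) := by rw [hm]; ring
      _ ≤ s * Cm ^ L * (a ^ (5 * L) * (a ^ (2 * L) *
          ((4 * a) ^ (2 * L) * (E ^ L * 2 ^ L)))) := by
          gcongr
      _ = s * (Cm * (32 * (a ^ 9 * E))) ^ L := by
          have e1 : (4 * a) ^ (2 * L) = (16 * a ^ 2) ^ L := by
            rw [pow_mul]; congr 1; ring
          have e2 : a ^ (5 * L) = (a ^ 5) ^ L := pow_mul _ _ _
          have e3 : a ^ (2 * L) = (a ^ 2) ^ L := pow_mul _ _ _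
          rw [e1, e2, e3, mul_assoc, ← mul_pow, ← mul_pow, ← mul_pow, ← mul_pow, ← mul_pow]
          congr 2
          ring
      _ ≤ s * 1 := mul_le_mul_of_nonneg_left hYL hs.le
      _ = s := mul_one s

end Pool.Agent.Work.MP_db9399_px.helper23
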