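import Mathlib
import Pool.Agent.Work.MP_db9399_px.Interface

/-!
# MP_db9399, PARTX, block PX1 (helper23)

The functional inequality for the random partition, from FN, TR, LLX.
-/

set_option autoImplicit false

namespace Pool.Agent.Work.MP_db9399_px.helper23

open Finset Classical
open Pool.Agent.Work.MP_db9399_all (nb pr DepOnI PackI)
open Pool.Agent.Work.MP_db9399_px

universe u

/-- uniform constants for finitely many monotone requirements -/
theorem exists_unif (M : ℕ) (φ : ℕ → ℝ → ℝ → Prop)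
    (hmono : ∀ k Θ Θ' δ δ', Θ ≤ Θ' → δ' ≤ δ → φ k Θ δ → φ k Θ' δ')
    (h : ∀ k, 1 ≤ k → k ≤ M → ∃ Θ δ : ℝ, 1 ≤ Θ ∧ 0 < δ ∧ φ k Θ δ) :
    ∃ Θ δ : ℝ, 1 ≤ Θ ∧ 0 < δ ∧ ∀ k, 1 ≤ k → k ≤ M → φ k Θ δ := by
  have key : ∀ K, K ≤ M → ∃ Θ δ : ℝ, 1 ≤ Θ ∧ 0 < δ ∧ ∀ k, 1 ≤ k → k ≤ K → φ k Θ δ := by
    intro K
    induction K with
    | zero =>
      intro _
      exact ⟨1, 1, le_refl _, one_pos, fun k h1 h2 => absurd h1 (by omega)⟩
    | succ K ih =>
      intro hK
      obtain ⟨Θ1, δ1, h1, h2, h3⟩ := ih (by omega)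
      obtain ⟨Θ2, δ2, h4, h5, h6⟩ := h (K + 1) (by omega) hK
      refine ⟨max Θ1 Θ2, min δ1 δ2, le_trans h1 (le_max_left _ _), lt_min h2 h5, ?_⟩
      intro k hk1 hk2
      rcases Nat.lt_or_ge k (K + 1) with hlt | hge
      · exact hmono k _ _ _ _ (le_max_left _ _) (min_le_left _ _) (h3 k hk1 (by omega))
      · have : k = K + 1 := by omega
        subst this
        exact hmono _ _ _ _ _ (le_max_right _ _) (min_le_right _ _) h6
  exact key M (le_refl _)

/-- double counting -/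
theorem sum_nb_inter {V : Type u} [Fintype V] (G : SimpleGraph V) (C : Finset V) :
    ∑ v : V, (nb G v ∩ C).card = ∑ c ∈ C, (nb G c).card := by
  have h := Finset.sum_card_bipartiteAbove_eq_sum_card_bipartiteBelow (s := (univ : Finset V))
    (t := C) (fun v c => G.Adj v c)
  have h1 : ∀ v, (C.bipartiteAbove (fun v c => G.Adj v c) v) = nb G v ∩ C := by
    intro v
    ext c
    simp [Finset.mem_bipartiteAbove, nb, and_comm]
  have h2 : ∀ c, ((univ : Finset V).bipartiteBelow (fun v c => G.Adj v c) c) = nb G c := by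
    intro c
    ext v
    simp [Finset.mem_bipartiteBelow, nb, G.adj_comm]
  simp only [h1, h2] at h
  exact h

/-- the size of a set with few neighbours of everybody -/
theorem card_le_of_deg {V : Type u} [Fintype V] (G : SimpleGraph V) (C : Finset V) (a b : ℝ)
    (h1 : ∀ v, ((nb G v ∩ C).card : ℝ) ≤ a) (h2 : ∀ v, b ≤ ((nb G v).card : ℝ)) :
    b * C.card ≤ a * Fintype.card V := by
  have h := sum_nb_inter G C
  have h' : ∑ v : V, ((nb G v ∩ C).card : ℝ) = ∑ c ∈ C, ((nb G c).card : ℝ) := by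
    exact_mod_cast h
  calc b * C.card = ∑ c ∈ C, b := by rw [Finset.sum_const, nsmul_eq_mul, mul_comm]
    _ ≤ ∑ c ∈ C, ((nb G c).card : ℝ) := Finset.sum_le_sum (fun c _ => h2 c)
    _ = ∑ v : V, ((nb G v ∩ C).card : ℝ) := h'.symm
    _ ≤ ∑ v : V, a := Finset.sum_le_sum (fun c _ => h1 c)
    _ = a * Fintype.card V := by
      rw [Finset.sum_const, nsmul_eq_mul, mul_comm, Finset.card_univ]

/-- the numerical core -/
theorem num_core (γ p N As Bs A2 B2 A0 n C g κ σ M F F2 d a0 : ℝ) (hγ : 0 < γ) (hγ1 : γ ≤ 1)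
    (hg : g = γ / 32) (hκ : κ = γ / 1000) (hσ : σ = γ / 1000)
    (hp : 0 < p) (hM : 1 ≤ M) (hpM : 1 ≤ p * M) (hd : 0 < d)
    (hN : N = As + Bs) (hAs : 0 ≤ As) (hBs : 0 ≤ Bs) (hAn : As ≤ n) (hBn : Bs ≤ n)
    (hA0 : 0 < A0) (hA03 : A0 ≤ 3 * A2) (hB2 : B2 ≤ (1 + 2 * g + 2 * κ) * A0)
    (hA0a : A0 ≤ a0) (ha0 : 2 * a0 ≤ C + 2 * M + 2) (hC : C ≤ 1.03 * p * n)
    (hn : 20 * M ^ 2 ≤ n)
    (h2 : |A2 - p * As| ≤ σ * p * N) (h3 : |B2 - p * Bs| ≤ σ * p * N)
    (h1 : |F2 - p ^ 2 * F| ≤ σ * p ^ 2 * d * N)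
    (hF2 : F2 ≤ g * (p * d) * A2 + κ * (p * d) * A0)
    (hFN : 4 * Bs ≤ 3 * n → γ / 16 * d * As ≤ F) : False := by
  have hσ0 : 0 < σ := by rw [hσ]; positivity
  have hσ1 : σ ≤ 1 / 1000 := by rw [hσ]; linarith
  have hg1 : g ≤ 1 / 32 := by rw [hg]; linarith
  have hκ1 : κ ≤ 1 / 1000 := by rw [hκ]; linarith
  have hg0 : 0 ≤ g := by rw [hg]; positivity
  have hκ0 : 0 ≤ κ := by rw [hκ]; positivity
  obtain ⟨h2a, h2b⟩ := abs_le.mp h2
  obtain ⟨h3a, h3b⟩ := abs_le.mp h3
  obtain ⟨h1a, h1b⟩ := abs_le.mp h1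
  have hB2' : B2 ≤ 1.1 * A0 := by
    have : (1 + 2 * g + 2 * κ) * A0 ≤ 1.1 * A0 := mul_le_mul_of_nonneg_right (by linarith) hA0.le
    linarith
  have hN2n : N ≤ 2 * n := by linarith
  have hn0 : 0 ≤ n := le_trans hAs hAn
  -- B* is not too large
  have hB : 4 * Bs ≤ 3 * n := by
    have e1 : σ * p * N ≤ 1 / 1000 * p * (2 * n) := by
      have c0 : σ * p ≤ 1 / 1000 * p := mul_le_mul_of_nonneg_right hσ1 hp.le
      have h0 : 0 ≤ N := by linarith
      calc σ * p * N ≤ 1 / 1000 * p * N := mul_le_mul_of_nonneg_right c0 h0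
        _ ≤ 1 / 1000 * p * (2 * n) := by
          apply mul_le_mul_of_nonneg_left hN2n; positivity
    have e2 : p * Bs ≤ 0.5665 * (p * n) + 1.1 * (M + 1) + 1 / 500 * (p * n) := by
      have c1 : p * Bs ≤ B2 + σ * p * N := by linarith
      have c2 : B2 ≤ 0.55 * (C + 2 * M + 2) := by linarith
      have c3 : C ≤ 1.03 * (p * n) := by rw [← mul_assoc]; exact hC
      have c4 : 1 / 1000 * p * (2 * n) = 1 / 500 * (p * n) := by ring
      rw [c4] at e1
      linarith
    have e3 : 1.1 * (M + 1) ≤ 2.2 * M := by linarith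
    have e4 : 2.2 * M ≤ 2.2 * M * (p * M) := by
      have : 2.2 * M * 1 ≤ 2.2 * M * (p * M) := mul_le_mul_of_nonneg_left hpM (by linarith)
      linarith
    have e5 : 2.2 * M * (p * M) = p * (2.2 * M ^ 2) := by ring
    have e6 : p * (2.2 * M ^ 2) ≤ p * (0.11 * n) := by
      apply mul_le_mul_of_nonneg_left _ hp.le
      linarith
    have e8 : p * Bs ≤ p * (0.7 * n) := by
      have hpn : 0 ≤ p * n := mul_nonneg hp.le hn0
      have c5 : p * (0.7 * n) = 0.7 * (p * n) := by ring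
      have c6 : p * (0.11 * n) = 0.11 * (p * n) := by ring
      rw [c5]; rw [c6] at e6
      linarith
    have e9 : Bs ≤ 0.7 * n := le_of_mul_le_mul_left e8 hp
    linarith
  have hF := hFN hB
  have hN0 : 0 ≤ N := by linarith
  have hA2 : 0 < A2 := by linarith
  -- N is comparable with A*
  have hpN : 0 ≤ p * N := mul_nonneg hp.le hN0
  have e1 : σ * p * N ≤ 1 / 1000 * (p * N) := by
    have : σ * p * N = σ * (p * N) := by ring
    rw [this]; exact mul_le_mul_of_nonneg_right hσ1 hpN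
  have e2 : p * N ≤ A2 + B2 + 2 * (1 / 1000 * (p * N)) := by
    have : p * N = p * As + p * Bs := by rw [hN]; ring
    linarith
  have e3 : A2 + B2 ≤ 4.3 * A2 := by linarith
  have e4 : A2 ≤ p * As + 1 / 1000 * (p * N) := by linarith
  have e5 : p * N ≤ p * (5 * As) := by
    have : p * (5 * As) = 5 * (p * As) := by ring
    rw [this]; linarith
  have hN5 : N ≤ 5 * As := le_of_mul_le_mul_left e5 hp
  have hAs0 : 0 < As := by
    rcases lt_or_eq_of_le hAs with h | h
    · exact h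
    · rw [← h] at hN5 e4
      have : N = 0 := by linarith
      rw [this] at e4
      linarith
  -- the contradiction
  have f1 : p ^ 2 * F ≤ F2 + σ * p ^ 2 * d * N := by linarith
  have f2 : p ^ 2 * (γ / 16 * d * As) ≤ p ^ 2 * F := mul_le_mul_of_nonneg_left hF (by positivity)
  have f3 : κ * (p * d) * A0 ≤ κ * (p * d) * (3 * A2) :=
    mul_le_mul_of_nonneg_left hA03 (by positivity)
  have f4 : F2 ≤ (g + 3 * κ) * (p * d) * A2 := by
    calc F2 ≤ g * (p * d) * A2 + κ * (p * d) * A0 := hF2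
      _ ≤ g * (p * d) * A2 + κ * (p * d) * (3 * A2) := by linarith
      _ = (g + 3 * κ) * (p * d) * A2 := by ring
  have f5 : (g + 3 * κ) * (p * d) * A2 ≤ (g + 3 * κ) * (p * d) * (p * As + σ * p * N) :=
    mul_le_mul_of_nonneg_left (by linarith) (by positivity)
  have f6 : p ^ 2 * (γ / 16 * d * As) ≤
      (g + 3 * κ) * (p * d) * (p * As + σ * p * N) + σ * p ^ 2 * d * N := by linarith
  have f7 : p ^ 2 * d * (γ / 16 * As) ≤
      p ^ 2 * d * ((g + 3 * κ) * (As + σ * N) + σ * N) := by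
    calc p ^ 2 * d * (γ / 16 * As) = p ^ 2 * (γ / 16 * d * As) := by ring
      _ ≤ _ := f6
      _ = _ := by ring
  have hpd : 0 < p ^ 2 * d := by positivity
  have f8 : γ / 16 * As ≤ (g + 3 * κ) * (As + σ * N) + σ * N := le_of_mul_le_mul_left f7 hpd
  have f9 : (g + 3 * κ) * (σ * N) ≤ 1 * (σ * N) :=
    mul_le_mul_of_nonneg_right (by linarith) (by positivity)
  have f10 : σ * N ≤ σ * (5 * As) := mul_le_mul_of_nonneg_left hN5 hσ0.le
  have f11 : γ / 16 * As ≤ (g + 3 * κ) * As + 2 * (σ * (5 * As)) := by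
    have : (g + 3 * κ) * (As + σ * N) = (g + 3 * κ) * As + (g + 3 * κ) * (σ * N) := by ring
    linarith
  rw [hg, hκ, hσ] at f11
  have f12 : 0 < γ * As := by positivity
  have f13 : (γ / 32 + 3 * (γ / 1000)) * As + 2 * (γ / 1000 * (5 * As)) =
      (1 / 32 + 3 / 1000 + 10 / 1000) * (γ * As) := by ring
  have f14 : γ / 16 * As = 1 / 16 * (γ * As) := by ring
  rw [f13, f14] at f11
  linarith

/-- the body of TR -/
def TRB (p κ Θ0 δ0 : ℝ) : Prop :=
    ∀ {V : Type u} [Fintype V] (G : SimpleGraph V) (d q a0 : ℕ) (g δ Θ : ℝ) (C D : Finset V),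
      0 ≤ g → g ≤ 1 / 32 → 0 ≤ δ → δ ≤ δ0 → Θ0 ≤ Θ → 1 ≤ d → 1 ≤ q →
      2 * Θ * q ≤ p * d → p * d ≤ 4 * Θ * q → 4 * d ≤ Real.exp Θ → (∀ v, (nb G v).card ≤ d) →
      (∀ v, |((nb G v ∩ C).card : ℝ) - p * d| ≤ δ * (p * d)) →
      (∀ v, |((nb G v ∩ D).card : ℝ) - p * d| ≤ δ * (p * d)) →
      ∀ A B : Finset V, A ⊆ C → B ⊆ D → A.card ≤ a0 →
        ff G (p * d / 2) D A B < g * (p * d) * A.card →
        ∃ (A0 R S : Finset V) (L : ℕ) (w : ℕ → V), A0 ⊆ C ∧ A0.Nonempty ∧ A0.card ≤ a0 ∧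
          (LWalk G L w ∧ ∀ v ∈ R ∪ S, ∃ i ≤ L, w i = v) ∧ 1 ≤ L ∧
          (L : ℝ) * (p * d) ≤ 400 * Θ * A0.card ∧
          (A0.card : ℝ) ≤ 3 * ((hit G ((1 / 2 - g) * (p * d) / q) S ∩ C).card : ℝ) ∧
          (((hit G (p * d / (2 * q)) R ∩ D).card : ℝ) ≤ (1 + 2 * g + 2 * κ) * A0.card) ∧
          ff G (p * d / 2) D (hit G ((1 / 2 - g) * (p * d) / q) S ∩ C)
              (hit G (p * d / (2 * q)) R ∩ D) ≤
            g * (p * d) * ((hit G ((1 / 2 - g) * (p * d) / q) S ∩ C).card : ℝ) +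
              κ * (p * d) * A0.card

theorem log_le (d M : ℝ) (hM : 1 ≤ M) (hd : 256 * M ^ 2 ≤ d) : 8 * Real.log d ≤ d / M := by
  have hd0 : 0 < d := by nlinarith
  have h1 : Real.log d ≤ 2 * √d := by
    have h := Real.log_le_sub_one_of_pos (Real.sqrt_pos.mpr hd0)
    rw [Real.log_sqrt hd0.le] at h
    linarith [Real.sqrt_nonneg d]
  have h2 : 16 * M ≤ √d := by
    apply Real.le_sqrt_of_sq_le
    nlinarith
  rw [le_div_iff₀ (by linarith)]
  have h3 : √d * √d = d := Real.mul_self_sqrt hd0.le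
  have h4 : 0 ≤ √d := Real.sqrt_nonneg d
  calc 8 * Real.log d * M ≤ 8 * (2 * √d) * M := by
        apply mul_le_mul_of_nonneg_right _ (by linarith)
        linarith
    _ = √d * (16 * M) := by ring
    _ ≤ √d * √d := mul_le_mul_of_nonneg_left h2 h4
    _ = d := h3

theorem stmt_PX1 (hFN : Stmt_FN.{u}) (hTR : Stmt_TR.{u}) (hLLX : Stmt_LLX.{u}) :
    Stmt_PX1.{u} := by
  intro γ δ M hγ hγ1 hδ hM
  have hMR : (1 : ℝ) ≤ M := by exact_mod_cast hM
  have hM0 : (0 : ℝ) < M := by linarith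
  have hκ0 : 0 < γ / 1000 := by positivity
  obtain ⟨Θ0, δ0, hΘ0, hδ0, hTR'⟩ := exists_unif M
    (fun k Θ0 δ0 => TRB.{u} ((k : ℝ) / M) (γ / 1000) Θ0 δ0)
    (by
      intro k Θ Θ' δ1 δ1' hΘ hδδ h V _ G d q a0 g δ2 Θ2 C D a1 a2 a3 a4 a5
      exact h G d q a0 g δ2 Θ2 C D a1 a2 a3 (le_trans a4 hδδ) (le_trans hΘ a5))
    (by
      intro k hk1 hk2
      have hk1' : (1 : ℝ) ≤ k := by exact_mod_cast hk1
      have hk2' : (k : ℝ) ≤ M := by exact_mod_cast hk2
      exact hTR ((k : ℝ) / M) (γ / 1000) (by positivity) (by rw [div_le_one hM0]; exact hk2')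
        hκ0 (by linarith))
  -- constants
  set δ' : ℝ := min 1 (min (δ / 2) (min (δ0 / (2 * M)) (1 / (100 * M)))) with hδ'
  have hδ'0 : 0 < δ' := by
    rw [hδ']
    refine lt_min one_pos (lt_min (by linarith) (lt_min (by positivity) (by positivity)))
  have hδ'1 : δ' ≤ 1 := min_le_left _ _
  have hδ'2 : δ' ≤ δ / 2 := le_trans (min_le_right _ _) (min_le_left _ _)
  have hδ'3 : δ' ≤ δ0 / (2 * M) :=
    le_trans (min_le_right _ _) (le_trans (min_le_right _ _) (min_le_left _ _))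
  have hδ'4 : δ' ≤ 1 / (100 * M) :=
    le_trans (min_le_right _ _) (le_trans (min_le_right _ _) (min_le_right _ _))
  set ε : ℝ := min (γ / 100) (min (δ / 2) (δ0 / 2)) with hε
  have hε0 : 0 < ε := lt_min (by positivity) (lt_min (by linarith) (by linarith))
  have hε1 : ε ≤ γ / 100 := min_le_left _ _
  have hε2 : ε ≤ δ / 2 := le_trans (min_le_right _ _) (min_le_left _ _)
  have hε3 : ε ≤ δ0 / 2 := le_trans (min_le_right _ _) (min_le_right _ _)
  have hε4 : ε ≤ 1 / 100 := by linarith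
  obtain ⟨dL, hdL1, hL⟩ := hLLX M (γ / 1000) δ' (1 / (2400 * M)) hM hκ0 (by linarith) hδ'0 hδ'1
    (by positivity)
  refine ⟨ε, dL + ⌈Real.exp Θ0⌉₊ + 256 * M ^ 2 + ⌈32 / γ⌉₊ + 4, hε0, by omega, ?_⟩
  intro V _ G d blk pos hd hNR hBE hBl
  have hd1 : dL ≤ d := by omega
  have hd2 : Real.exp Θ0 ≤ d := by
    refine le_trans (Nat.le_ceil _) ?_
    exact_mod_cast (by omega : ⌈Real.exp Θ0⌉₊ ≤ d)
  have hd3 : 256 * (M : ℝ) ^ 2 ≤ d := by
    exact_mod_cast (by omega : 256 * M ^ 2 ≤ d)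
  have hd4 : 32 / γ ≤ d := by
    refine le_trans (Nat.le_ceil _) ?_
    exact_mod_cast (by omega : ⌈32 / γ⌉₊ ≤ d)
  have hd5 : (4 : ℝ) ≤ d := by exact_mod_cast (by omega : 4 ≤ d)
  have hd0 : (0 : ℝ) < d := by linarith
  have hdeg : ∀ v, (nb G v).card ≤ d := fun v => (hNR v).1
  obtain ⟨f, hf1, hf2⟩ := hL G d blk pos hd1 hdeg hBl
  -- degrees into unions of atoms
  have hp01 : ∀ P : Finset (Fin M), 0 ≤ (P.card : ℝ) / M ∧ (P.card : ℝ) / M ≤ 1 := by
    intro P
    refine ⟨by positivity, ?_⟩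
    rw [div_le_one hM0]
    have := Finset.card_le_univ P
    rw [Fintype.card_fin] at this
    exact_mod_cast this
  have hdg : ∀ v (P : Finset (Fin M)),
      |((nb G v ∩ cc M blk pos f P).card : ℝ) - (P.card : ℝ) / M * d| ≤
        δ' * d + ε * ((P.card : ℝ) / M * d) := by
    intro v P
    have h1 := (hf1 v P).1
    obtain ⟨hp0, hp1⟩ := hp01 P
    have h2 : |(P.card : ℝ) / M * (nb G v).card - (P.card : ℝ) / M * d| ≤
        ε * ((P.card : ℝ) / M * d) := by
      rw [← mul_sub, abs_mul, abs_of_nonneg hp0]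
      have h3 : |((nb G v).card : ℝ) - d| ≤ ε * d := by
        rw [abs_le]
        have h4 := (hNR v).2
        have h5 : ((nb G v).card : ℝ) ≤ d := by exact_mod_cast (hNR v).1
        constructor
        · linarith
        · have : 0 ≤ ε * d := by positivity
          linarith
      calc (P.card : ℝ) / M * |((nb G v).card : ℝ) - d| ≤ (P.card : ℝ) / M * (ε * d) :=
            mul_le_mul_of_nonneg_left h3 hp0
        _ = ε * ((P.card : ℝ) / M * d) := by ring
    calc |((nb G v ∩ cc M blk pos f P).card : ℝ) - (P.card : ℝ) / M * d|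
        ≤ |((nb G v ∩ cc M blk pos f P).card : ℝ) - (P.card : ℝ) / M * (nb G v).card| +
          |(P.card : ℝ) / M * (nb G v).card - (P.card : ℝ) / M * d| := abs_sub_le _ _ _
      _ ≤ _ := add_le_add h1 h2
  refine ⟨f, ?_, ?_⟩
  · intro v P
    refine ⟨le_trans (hdg v P) ?_, le_trans (hf1 v P).2 ?_⟩
    · obtain ⟨hp0, hp1⟩ := hp01 P
      have h1 : ε * ((P.card : ℝ) / M * d) ≤ δ / 2 * (1 * d) :=
        mul_le_mul hε2 (mul_le_mul_of_nonneg_right hp1 hd0.le) (by positivity) (by positivity)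
      have h2 : δ' * d ≤ δ / 2 * d := mul_le_mul_of_nonneg_right hδ'2 hd0.le
      linarith
    · have : δ' * (d : ℝ) ^ 2 ≤ δ * (d : ℝ) ^ 2 :=
        mul_le_mul_of_nonneg_right (by linarith) (by positivity)
      linarith
  intro P Q hPQ hPne A B hA hB hAC
  by_contra hcon
  rw [not_le] at hcon
  have hP1 : 1 ≤ P.card := hPne.card_pos
  have hPM : P.card ≤ M := by
    have := Finset.card_le_univ P
    rwa [Fintype.card_fin] at this
  have hTR2 : TRB.{u} ((P.card : ℝ) / M) (γ / 1000) Θ0 δ0 := hTR' P.card hP1 hPM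
  have hf1' := fun v => (hf1 v P).1
  have hP1' : (1 : ℝ) ≤ P.card := by exact_mod_cast hP1
  have hp0' : 0 < (P.card : ℝ) / M := div_pos (by linarith) hM0
  have hp1' := (hp01 P).2
  obtain ⟨p, hp⟩ : ∃ p : ℝ, p = (P.card : ℝ) / M := ⟨_, rfl⟩
  rw [← hp] at hcon hTR2 hp0' hp1'
  simp only [← hp] at hf1'
  have hpQ : (Q.card : ℝ) / M = p := by rw [hp, hPQ]
  have hp0 : 0 < p := hp0'
  have hp1 : p ≤ 1 := hp1'
  have hpM : 1 ≤ p * M := by rw [hp, div_mul_cancel₀ _ hM0.ne']; exact hP1'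
  have hpM' : 1 / (M : ℝ) ≤ p := by
    rw [div_le_iff₀ hM0]; exact hpM
  have hAne : A.Nonempty := by
    rcases A.eq_empty_or_nonempty with h | h
    · exfalso
      subst h
      simp only [ff, ee, Finset.sum_empty, Finset.card_empty, Nat.cast_zero, mul_zero, sub_zero,
        zero_add] at hcon
      have : 0 ≤ p * d / 2 * (B.card : ℝ) := by positivity
      linarith
    · exact h
  have hAd : A.card ≤ ((cc M blk pos f P).card + 2 * M + 2) / 2 := by omega
  -- Θ and q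
  have hlog0 : 0 < Real.log d := Real.log_pos (by linarith)
  have hΘ : Θ0 ≤ 2 * Real.log d := by
    have : Θ0 ≤ Real.log d := by
      rw [Real.le_log_iff_exp_le hd0]; exact hd2
    linarith
  have hexp : 4 * (d : ℝ) ≤ Real.exp (2 * Real.log d) := by
    have : Real.exp (2 * Real.log d) = (d : ℝ) * d := by
      rw [two_mul, Real.exp_add, Real.exp_log hd0]
    rw [this]
    exact mul_le_mul_of_nonneg_right hd5 hd0.le
  have hlog := log_le d M hMR hd3
  have hpd : 8 * Real.log d ≤ p * d := by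
    calc 8 * Real.log d ≤ d / M := hlog
      _ = 1 / M * d := by ring
      _ ≤ p * d := mul_le_mul_of_nonneg_right hpM' hd0.le
  obtain ⟨x, hx⟩ : ∃ x : ℝ, x = p * d / (2 * (2 * Real.log d)) := ⟨_, rfl⟩
  have hx2 : 2 ≤ x := by
    rw [hx, le_div_iff₀ (by positivity)]
    linarith
  obtain ⟨q, hq⟩ : ∃ q : ℕ, q = ⌊x⌋₊ := ⟨_, rfl⟩
  have hq1 : 1 ≤ q := by
    rw [hq]; apply Nat.le_floor; push_cast; linarith
  have hqx : (q : ℝ) ≤ x := by rw [hq]; exact Nat.floor_le (by linarith)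
  have hxq : x ≤ 2 * q := by
    have := Nat.lt_floor_add_one x
    rw [← hq] at this
    linarith
  have hx3 : x * (2 * (2 * Real.log d)) = p * d := by
    rw [hx]; exact div_mul_cancel₀ _ (by positivity)
  have hq2 : 2 * (2 * Real.log d) * q ≤ p * d := by
    rw [← hx3, mul_comm x]
    exact mul_le_mul_of_nonneg_left hqx (by positivity)
  have hq3 : p * d ≤ 4 * (2 * Real.log d) * q := by
    rw [← hx3]
    have : x * (2 * (2 * Real.log d)) ≤ (2 * q) * (2 * (2 * Real.log d)) :=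
      mul_le_mul_of_nonneg_right hxq (by positivity)
    linarith
  have hq0 : (0 : ℝ) < q := by exact_mod_cast hq1
  -- degrees for TR
  have hdegT : ∀ v (P' : Finset (Fin M)), (P'.card : ℝ) / M = p →
      |((nb G v ∩ cc M blk pos f P').card : ℝ) - p * d| ≤ δ0 * (p * d) := by
    intro v P' hP'
    have h := hdg v P'
    rw [hP'] at h
    refine le_trans h ?_
    have h1 : δ' * d ≤ δ0 / 2 * (p * d) := by
      calc δ' * d ≤ δ0 / (2 * M) * d := mul_le_mul_of_nonneg_right hδ'3 hd0.le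
        _ = δ0 / 2 * (1 / M * d) := by field_simp
        _ ≤ δ0 / 2 * (p * d) := by
          apply mul_le_mul_of_nonneg_left _ (by positivity)
          exact mul_le_mul_of_nonneg_right hpM' hd0.le
    have h2 : ε * (p * d) ≤ δ0 / 2 * (p * d) := mul_le_mul_of_nonneg_right hε3 (by positivity)
    linarith
  obtain ⟨A0, R, S, L, w, hA0C, hA0ne, hA0a, ⟨hW, hcov⟩, hL1, hLp, hA03, hB2, hF2⟩ :=
    hTR2 G d q (((cc M blk pos f P).card + 2 * M + 2) / 2) (γ / 32) δ0
      (2 * Real.log d) (cc M blk pos f P) (cc M blk pos f Q) (by positivity) (by linarith)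
      hδ0.le (le_refl _) hΘ (by omega) hq1 hq2 hq3 hexp hdeg (fun v => hdegT v P hp.symm)
      (fun v => hdegT v Q hpQ) A B hA hB hAd hcon
  obtain ⟨θ2, hθ2⟩ : ∃ θ : ℝ, θ = (1 / 2 - γ / 32) * (p * d) / q := ⟨_, rfl⟩
  obtain ⟨θ1, hθ1⟩ : ∃ θ : ℝ, θ = p * d / (2 * q) := ⟨_, rfl⟩
  rw [← hθ2] at hA03 hF2
  rw [← hθ1] at hB2 hF2
  have hA0pos : (0 : ℝ) < A0.card := by exact_mod_cast hA0ne.card_pos
  have hsub2 : ((hit G θ2 S ∩ cc M blk pos f P).card : ℝ) ≤ (hit G θ2 S).card := by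
    exact_mod_cast Finset.card_le_card Finset.inter_subset_left
  have hcond : 1 / (2400 * (M : ℝ)) * (L * d) ≤
      Real.log d * (((hit G θ2 S).card : ℝ) + (hit G θ1 R).card) := by
    have h1 : (L : ℝ) * (p * d) ≤ 2400 * Real.log d * (hit G θ2 S).card := by
      calc (L : ℝ) * (p * d) ≤ 400 * (2 * Real.log d) * A0.card := hLp
        _ ≤ 400 * (2 * Real.log d) * (3 * ((hit G θ2 S).card : ℝ)) := by
          apply mul_le_mul_of_nonneg_left _ (by positivity)
          linarith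
        _ = 2400 * Real.log d * (hit G θ2 S).card := by ring
    have h2 : 1 / (M : ℝ) * (L * d) ≤ p * (L * d) :=
      mul_le_mul_of_nonneg_right hpM' (by positivity)
    have h3 : 0 ≤ Real.log d * ((hit G θ1 R).card : ℝ) := by positivity
    have h4 : 1 / (2400 * (M : ℝ)) * (L * d) = 1 / 2400 * (1 / (M : ℝ) * (L * d)) := by
      field_simp
    rw [h4]
    have h5 : p * (L * d) = (L : ℝ) * (p * d) := by ring
    rw [h5] at h2
    linarith
  have hgood := hf2 P Q L w R S θ1 θ2 hPQ hPne hW hL1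
    (by rw [hθ1]; positivity)
    (by
      rw [hθ2]
      apply div_nonneg _ hq0.le
      apply mul_nonneg (by linarith) (by positivity)) hcov hcond
  obtain ⟨hg1, hg2, hg3⟩ := hgood
  rw [← hp] at hg1 hg2 hg3
  -- the size of V
  have hVne : Nonempty V := ⟨hAne.choose⟩
  have hn1 : (1 - ε) * d ≤ (Fintype.card V : ℝ) := by
    obtain ⟨v⟩ := hVne
    refine le_trans (hNR v).2 ?_
    exact_mod_cast Finset.card_le_univ _
  have hn2 : (d : ℝ) / 2 ≤ (Fintype.card V : ℝ) := by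
    have : (d : ℝ) / 2 ≤ (1 - ε) * d := by
      have h1 : (1 : ℝ) / 2 * d ≤ (1 - ε) * d := mul_le_mul_of_nonneg_right (by linarith) hd0.le
      linarith
    linarith
  have hC : ((cc M blk pos f P).card : ℝ) ≤ 1.03 * p * Fintype.card V := by
    have h := card_le_of_deg G (cc M blk pos f P) ((p + δ') * d) ((1 - ε) * d)
      (fun v => by
        have h1 := (abs_le.mp (hf1' v)).2
        have h2 : p * ((nb G v).card : ℝ) ≤ p * d :=
          mul_le_mul_of_nonneg_left (by exact_mod_cast hdeg v) hp0.le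
        linarith)
      (fun v => (hNR v).2)
    have h3 : δ' ≤ p / 100 := by
      refine le_trans hδ'4 ?_
      have : 1 / (100 * (M : ℝ)) = 1 / M / 100 := by field_simp
      rw [this]
      linarith
    have h4 : (99 : ℝ) / 100 * ((cc M blk pos f P).card : ℝ) ≤
        (101 / 100) * p * Fintype.card V := by
      have h5 : d * ((99 : ℝ) / 100 * ((cc M blk pos f P).card : ℝ)) ≤
          d * ((101 / 100) * p * Fintype.card V) := by
        calc d * ((99 : ℝ) / 100 * ((cc M blk pos f P).card : ℝ)) ≤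
              d * ((1 - ε) * ((cc M blk pos f P).card : ℝ)) := by
              apply mul_le_mul_of_nonneg_left _ hd0.le
              exact mul_le_mul_of_nonneg_right (by linarith) (by positivity)
          _ = (1 - ε) * d * ((cc M blk pos f P).card : ℝ) := by ring
          _ ≤ (p + δ') * d * Fintype.card V := h
          _ ≤ (p + p / 100) * d * Fintype.card V := by
              apply mul_le_mul_of_nonneg_right _ (by positivity)
              exact mul_le_mul_of_nonneg_right (by linarith) hd0.le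
          _ = _ := by ring
      exact le_of_mul_le_mul_left h5 hd0
    have h6 : 0 ≤ p * (Fintype.card V : ℝ) := by positivity
    have h7 : 1.03 * p * (Fintype.card V : ℝ) = 1.03 * (p * Fintype.card V) := by ring
    have h8 : (101 / 100) * p * (Fintype.card V : ℝ) = (101 / 100) * (p * Fintype.card V) := by
      ring
    rw [h7]; rw [h8] at h4
    linarith
  have ha0 : 2 * ((((cc M blk pos f P).card + 2 * M + 2) / 2 : ℕ) : ℝ) ≤
      (cc M blk pos f P).card + 2 * M + 2 := by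
    exact_mod_cast Nat.mul_div_le _ _
  have hcardle : ∀ X : Finset V, (X.card : ℝ) ≤ Fintype.card V := by
    intro X; exact_mod_cast Finset.card_le_univ X
  exact num_core γ p (((hit G θ2 S).card : ℝ) + (hit G θ1 R).card) (hit G θ2 S).card
    (hit G θ1 R).card (hit G θ2 S ∩ cc M blk pos f P).card
    (hit G θ1 R ∩ cc M blk pos f Q).card A0.card (Fintype.card V) (cc M blk pos f P).card
    (γ / 32) (γ / 1000)
    (γ / 1000) M (ff G ((d : ℝ) / 2) univ (hit G θ2 S) (hit G θ1 R))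
    (ff G (p * d / 2) (cc M blk pos f Q) (hit G θ2 S ∩ cc M blk pos f P)
      (hit G θ1 R ∩ cc M blk pos f Q)) d ((((cc M blk pos f P).card + 2 * M + 2) / 2 : ℕ) : ℝ)
    hγ hγ1 rfl rfl rfl hp0 hMR hpM hd0 rfl (by positivity) (by positivity) (hcardle _)
    (hcardle _) hA0pos hA03 hB2 (by exact_mod_cast hA0a) ha0 hC
    (by
      have : 0 ≤ (M : ℝ) ^ 2 := sq_nonneg _
      linarith) hg2 hg3 hg1 hF2
    (fun h4 => hFN G d γ ε hγ hγ1 hε0.le hε1
      (by
        have : 16 / γ = 32 / γ / 2 := by ring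
        rw [this]; linarith) hNR hBE _ _ (by exact_mod_cast h4))

end Pool.Agent.Work.MP_db9399_px.helper23
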